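import Pool.Agent.MP_ed9623_an.H41.Dens

/-! A pointwise bound at a given scale by the function, its gradient and its Laplacian. -/

open MeasureTheory Filter Topology Set
open scoped ContDiff Pointwise

namespace Pool.Agent.MP_ed9623_an.E13

open H64 H77

theorem le_int {g : ℝ → ℝ} (hg : ContDiff ℝ ∞ g) (hc : HasCompactSupport g) (b : ℝ) :
    |g b| ≤ ∫ x, |deriv g x| := by
  have i : Integrable (deriv g) :=
    (hg.continuous_deriv (by simp)).integrable_of_hasCompactSupport hc.deriv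
  rw [← hc.integral_Iic_deriv_eq (hg.of_le (by simp)) b]
  exact abs_integral_le_integral_abs.trans
    (setIntegral_le_integral i.abs (Eventually.of_forall fun _ => abs_nonneg _))

theorem der0 {f : P → ℝ} (hf : ContDiff ℝ ∞ f) (y s : ℝ) :
    deriv (fun y => f (y, s)) y = pd (ee 0) f (y, s) := by
  have a := HD.of_diff (e := ee 0) (sm_diff hf (y, s))
  unfold HD at a
  have b : HasDerivAt (fun r : ℝ => f (y + r, s)) (pd (ee 0) f (y, s)) 0 := by
    simpa [ee] using a
  have d : HasDerivAt (fun r : ℝ => f (y + r, s)) (pd (ee 0) f (y, s)) (y + -y) := by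
    rwa [add_neg_cancel]
  have e := (d.comp_add_const y (-y)).deriv
  simpa using e

theorem der1 {f : P → ℝ} (hf : ContDiff ℝ ∞ f) (y s : ℝ) :
    deriv (fun s => f (y, s)) s = pd (ee 1) f (y, s) := by
  have a := HD.of_diff (e := ee 1) (sm_diff hf (y, s))
  unfold HD at a
  have b : HasDerivAt (fun r : ℝ => f (y, s + r)) (pd (ee 1) f (y, s)) 0 := by
    simpa [ee] using a
  have d : HasDerivAt (fun r : ℝ => f (y, s + r)) (pd (ee 1) f (y, s)) (s + -s) := by
    rwa [add_neg_cancel]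
  have e := (d.comp_add_const s (-s)).deriv
  simpa using e

theorem cs0 {f : P → ℝ} (hf : HasCompactSupport f) (s : ℝ) :
    HasCompactSupport fun y : ℝ => f (y, s) :=
  HasCompactSupport.intro (hf.isCompact.image continuous_fst) fun _ hy =>
    image_eq_zero_of_notMem_tsupport fun h => hy ⟨_, h, rfl⟩

theorem cs1 {f : P → ℝ} (hf : HasCompactSupport f) (y : ℝ) :
    HasCompactSupport fun s : ℝ => f (y, s) :=
  HasCompactSupport.intro (hf.isCompact.image continuous_snd) fun _ hy =>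
    image_eq_zero_of_notMem_tsupport fun h => hy ⟨_, h, rfl⟩

theorem le_int2 {g : P → ℝ} (hg : Test univ g) (p : P) :
    |g p| ≤ ∫ q, |pd (ee 1) (pd (ee 0) g) q| := by
  have g1 := hg.pd (ee 0)
  have g2 := g1.pd (ee 1)
  have i2 : Integrable (fun q => |pd (ee 1) (pd (ee 0) g) q|)
      ((volume : Measure ℝ).prod (volume : Measure ℝ)) :=
    (g2.ct.integrable_of_hasCompactSupport g2.2.1).abs
  have a := le_int (g := fun y => g (y, p.2)) (hg.1.comp (by fun_prop)) (cs0 hg.2.1 _) p.1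
  simp only [der0 hg.1] at a
  refine a.trans (le_of_le_of_eq (integral_mono_of_nonneg
    (Eventually.of_forall fun _ => abs_nonneg _) i2.integral_prod_left
    (Eventually.of_forall fun y => ?_)) (integral_prod _ i2).symm)
  have b := le_int (g := fun s => pd (ee 0) g (y, s)) (g1.1.comp (by fun_prop)) (cs1 g1.2.1 _) p.2
  simpa only [der1 g1.1] using b

theorem mixed {f : P → ℝ} (hf : Test univ f) :
    4 * nm (pd (ee 1) (pd (ee 0) f)) ^ 2
      ≤ nm (fun x => pd (ee 0) (pd (ee 0) f) x + pd (ee 1) (pd (ee 1) f) x) ^ 2 := by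
  have f0 := hf.pd (ee 0)
  have f1 := hf.pd (ee 1)
  have f00 := f0.pd (ee 0)
  have f11 := f1.pd (ee 1)
  have f01 := f0.pd (ee 1)
  have a := WD.of_cd (contDiff_infty.1 f0.1 1) univ (ee 1) _ f01
  have b := WD.of_cd (contDiff_infty.1 f0.1 1) univ (ee 0) _ f11
  rw [pd_comm_sm f1.1, pd_comm_sm hf.1 (ee 0) (ee 1)] at b
  have e : ∫ x, pd (ee 1) (pd (ee 0) f) x ^ 2
      = ∫ x, pd (ee 0) (pd (ee 0) f) x * pd (ee 1) (pd (ee 1) f) x := by
    simp only [sq]
    linarith
  rw [nm_sq, nm_sq, e, ← integral_const_mul]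
  refine integral_mono ((f00.m2.int_mul f11.m2).const_mul 4) (f00.m2.add f11.m2).int_sq
    fun x => ?_
  simp only
  nlinarith [sq_nonneg (pd (ee 0) (pd (ee 0) f) x - pd (ee 1) (pd (ee 1) f) x)]

theorem ag_sm {f : P → ℝ} (hf : Test univ f) {l : ℝ} (hl : 0 < l) (p : P) :
    f p ^ 2 ≤ l * nm f ^ 2 + nm (pd (ee 0) f) ^ 2 + nm (pd (ee 1) f) ^ 2
      + nm (fun x => pd (ee 0) (pd (ee 0) f) x + pd (ee 1) (pd (ee 1) f) x) ^ 2 / (4 * l) := by
  have f0 := hf.pd (ee 0)
  have f1 := hf.pd (ee 1)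
  have f01 := f0.pd (ee 1)
  have a := le_int2 (hf.muls hf.1) p
  have e0 : pd (ee 0) (fun x => f x * f x) = fun x => 2 * (f x * pd (ee 0) f x) :=
    funext fun x => by rw [pd_mul _ (sm_diff hf.1 x) (sm_diff hf.1 x)]; ring
  have e1 : ∀ x, pd (ee 1) (pd (ee 0) fun x => f x * f x) x
      = 2 * (pd (ee 1) f x * pd (ee 0) f x + f x * pd (ee 1) (pd (ee 0) f) x) := fun x => by
    rw [e0, pd_const_mul _ _ (sm_diff (hf.1.mul f0.1) x), pd_mul _ (sm_diff hf.1 x) (sm_diff f0.1 x)]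
  have i0 := hf.m2.int_sq.const_mul l
  have i1 := f0.m2.int_sq
  have i2 := f1.m2.int_sq
  have i3 := f01.m2.int_sq.const_mul l⁻¹
  have b : ∫ q, |pd (ee 1) (pd (ee 0) fun x => f x * f x) q| ≤ ∫ q, (l * f q ^ 2
      + pd (ee 0) f q ^ 2 + pd (ee 1) f q ^ 2 + l⁻¹ * pd (ee 1) (pd (ee 0) f) q ^ 2) := by
    refine integral_mono_of_nonneg (Eventually.of_forall fun _ => abs_nonneg _)
      (((i0.add i1).add i2).add i3) (Eventually.of_forall fun x => ?_)
    simp only [e1]
    generalize f x = u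
    generalize pd (ee 0) f x = v
    generalize pd (ee 1) f x = w
    generalize pd (ee 1) (pd (ee 0) f) x = k
    have h1 : l * l⁻¹ = 1 := mul_inv_cancel₀ hl.ne'
    have h2 : 0 < l⁻¹ := inv_pos.2 hl
    have h3 := mul_nonneg h2.le (sq_nonneg (l * u - k))
    have h4 := mul_nonneg h2.le (sq_nonneg (l * u + k))
    have h5 : l⁻¹ * (l * u - k) ^ 2 = l * u ^ 2 - 2 * u * k + l⁻¹ * k ^ 2 := by
      field_simp
      ring
    have h6 : l⁻¹ * (l * u + k) ^ 2 = l * u ^ 2 + 2 * u * k + l⁻¹ * k ^ 2 := by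
      field_simp
      ring
    rw [abs_le]
    constructor <;> nlinarith [sq_nonneg (v - w), sq_nonneg (v + w)]
  rw [integral_add ((i0.fun_add i1).fun_add i2) i3, integral_add (i0.fun_add i1) i2,
    integral_add i0 i1, integral_const_mul, integral_const_mul, ← nm_sq, ← nm_sq, ← nm_sq, ← nm_sq] at b
  have c := mixed hf
  have d : l⁻¹ * nm (pd (ee 1) (pd (ee 0) f)) ^ 2 ≤ nm (fun x => pd (ee 0) (pd (ee 0) f) x
      + pd (ee 1) (pd (ee 1) f) x) ^ 2 / (4 * l) := by
    rw [le_div_iff₀ (by positivity)]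
    refine le_of_eq_of_le ?_ c
    field_simp
  have e := le_abs_self (f p * f p)
  nlinarith

theorem ae_le {F : ℕ → P → ℝ} {f : P → ℝ} (h : Dens.Cv F f) {C : ℝ}
    (hC : ∀ n x, F n x ^ 2 ≤ C) : ∀ᵐ x, f x ^ 2 ≤ C := by
  have c0 : 0 ≤ C := (sq_nonneg _).trans (hC 0 0)
  have m : M2 fun x => max (|f x| - √C) 0 := by
    refine h.mg.of_le ?_ (Eventually.of_forall fun x => ?_)
    · exact ((continuous_id.abs.sub continuous_const).max continuous_const
        |>.comp_aestronglyMeasurable h.mg.meas)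
    · rw [abs_of_nonneg (le_max_right _ _)]
      exact max_le (sub_le_self _ (Real.sqrt_nonneg _)) (abs_nonneg _)
  have z : nm (fun x => max (|f x| - √C) 0) = 0 := by
    refine le_antisymm (ge_of_tendsto' h.lim fun n => nm_mono (h.mg.sub (h.m n))
      (Eventually.of_forall fun x => ?_)) (nm_nonneg _)
    rw [abs_of_nonneg (le_max_right _ _)]
    refine max_le ?_ (abs_nonneg _)
    have a := Real.abs_le_sqrt (hC n x)
    have b := abs_sub_abs_le_abs_sub (f x) (F n x)
    linarith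
  filter_upwards [nm_eq_zero m z] with x hx
  have a : |f x| ≤ √C := sub_nonpos.1 ((le_max_left _ _).trans hx.le)
  have := pow_le_pow_left₀ (abs_nonneg _) a 2
  rwa [sq_abs, Real.sq_sqrt c0] at this

/-- The bound for a weak solution of `-Δ f = G` with compact support. -/
theorem agm (h1 : Mol1S) (h2 : Mol2S) {f G : P → ℝ} {d : Fin 2 → P → ℝ} {K : Set P} {l : ℝ}
    (hl : 0 < l) (hK : IsCompact K) (hv : Van Kᶜ f) (hf : M2 f) (hd : ∀ i, M2 (d i))
    (hG : M2 G) (hw : ∀ i, WD univ (ee i) f (d i))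
    (he : ∀ φ, Test univ φ → ∑ i, ∫ x, d i x * pd (ee i) φ x = ∫ x, G x * φ x) :
    ∀ᵐ x, f x ^ 2 ≤ l * nm f ^ 2 + nm (d 0) ^ 2 + nm (d 1) ^ 2 + nm G ^ 2 / (4 * l) := by
  obtain ⟨k, e, hk, le, -, -⟩ := Dens.kers h2 one_pos
  refine ae_le (Dens.cv_mol h2 hk le hf) fun n x => ?_
  have kt := (hk n).test
  have hK' : IsCompact (K + tsupport (k n)) := hK.add kt.2.1
  have tf : Test univ (mol (k n) f) := ⟨((h1 _ kt).1 f hf).1,
    HasCompactSupport.intro hK' fun y hy => mol_van (O := Kᶜ)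
      (fun z hz hq => hy ⟨z, hq, _, hz, by simp⟩) hv, subset_univ _⟩
  have d1 : ∀ i, pd (ee i) (mol (k n) f) = mol (k n) (d i) := fun i =>
    funext (Dens.pd_mol h1 hk hf (hw i) n)
  have d2 : (fun x => pd (ee 0) (pd (ee 0) (mol (k n) f)) x + pd (ee 1) (pd (ee 1) (mol (k n) f)) x)
      = fun x => -mol (k n) G x := funext fun y => by
    have q := he _ (kt.refl y).top
    simp only [pd_refl kt.1, mul_neg, integral_neg, Fin.sum_univ_two] at q
    rw [d1, d1, ((h1 _ kt).1 _ (hd 0)).2, ((h1 _ kt).1 _ (hd 1)).2]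
    simp only [mol]
    linarith
  have a := ag_sm tf hl x
  rw [d2, d1, d1, nm_neg] at a
  have b := fun g (hg : M2 g) => pow_le_pow_left₀ (nm_nonneg _) (h2.2.1 _ _ g (hk n) hg).2 2
  refine a.trans ?_
  have b1 := mul_le_mul_of_nonneg_left (b f hf) hl.le
  have b2 := div_le_div_of_nonneg_right (b G hG) (show 0 ≤ 4 * l by positivity)
  linarith [b _ (hd 0), b _ (hd 1)]

end Pool.Agent.MP_ed9623_an.E13
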