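import Pool.Agent.MP_ed9623_an.H8.Rc2
import Pool.Agent.MP_ed9623_an.E13.Agm

/-! The Carleman estimate for the Laplacian, in the mean and pointwise. -/

open MeasureTheory Filter Topology Set
open scoped ContDiff

namespace Pool.Agent.MP_ed9623_an.E13

open H64 H77

/-- The Laplacian in the plane. -/
noncomputable def lap (χ : P → ℝ) (x : P) : ℝ :=
  pd (ee 0) (pd (ee 0) χ) x + pd (ee 1) (pd (ee 1) χ) x

/-- The weight without time. -/
noncomputable def E0 (c : P) (s τ : ℝ) (x : P) : ℝ :=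
  Real.exp (τ * (mm c s (0, x) * mm c s (0, x)))

theorem test_lap {O : Set P} {χ : P → ℝ} (h : Test O χ) : Test O (lap χ) :=
  ((h.pd _).pd _).add ((h.pd _).pd _)

theorem sm_E0 (c : P) (s τ : ℝ) : ContDiff ℝ ∞ (E0 c s τ) := by
  have : ContDiff ℝ ∞ fun x : P => mm c s (0, x) :=
    (cd_mm c s ∞).comp (contDiff_const.prodMk contDiff_id)
  exact (contDiff_const.mul (this.mul this)).exp

theorem exists_eta : ∃ η : ℝ → ℝ, ContDiff ℝ ∞ η ∧ HasCompactSupport η ∧ 0 < ∫ t, η t ^ 2 := by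
  let b : ContDiffBump (0 : ℝ) := ⟨1, 2, one_pos, one_lt_two⟩
  refine ⟨b, b.contDiff, b.hasCompactSupport, ?_⟩
  have c : Continuous fun t => b t ^ 2 := b.continuous.pow 2
  refine c.integral_pos_of_hasCompactSupport_nonneg_nonzero (x := 0) ?_ (fun _ => sq_nonneg _) ?_
  · simp only [sq]
    exact b.hasCompactSupport.mul_left
  · rw [b.one_of_mem_closedBall (Metric.mem_closedBall_self zero_le_one)]
    norm_num

section prod

variable {η : ℝ → ℝ} {χ : P → ℝ}

theorem sm_prod (hη : ContDiff ℝ ∞ η) (hχ : ContDiff ℝ ∞ χ) :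
    ContDiff ℝ ∞ fun z : ST => η z.1 * χ z.2 :=
  (hη.comp contDiff_fst).mul (hχ.comp contDiff_snd)

theorem pd_prod (hη : ContDiff ℝ ∞ η) (hχ : ContDiff ℝ ∞ χ) (e : P) :
    pd ((0, e) : ST) (fun z : ST => η z.1 * χ z.2) = fun z : ST => η z.1 * pd e χ z.2 :=
  funext fun z => by
    rw [← Rc2.pd_sl (sm_prod hη hχ) z.1 z.2 e]
    exact pd_const_mul e (η z.1) (sm_diff hχ z.2)

theorem pd0_prod (hη : ContDiff ℝ ∞ η) (hχ : ContDiff ℝ ∞ χ) (z : ST) :
    pd e0 (fun z : ST => η z.1 * χ z.2) z = deriv η z.1 * χ z.2 := by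
  refine HD.pd_eq ?_ ((sm_prod hη hχ).differentiable (by simp) z)
  have a : HasDerivAt η (deriv η z.1) (z.1 + 0) := by
    rw [add_zero]
    exact (hη.differentiable (by simp) _).hasDerivAt
  have := (a.comp (0 : ℝ) ((hasDerivAt_id (0 : ℝ)).const_add z.1)).mul_const (χ z.2)
  simpa [HD, Function.comp_def, Prod.mk_zero_zero] using this

theorem Lh_prod (hη : ContDiff ℝ ∞ η) (hχ : ContDiff ℝ ∞ χ) (z : ST) :
    Lh (fun z : ST => η z.1 * χ z.2) z = η z.1 * lap χ z.2 - deriv η z.1 * χ z.2 := by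
  have q4 : e1 = ((0, ee 0) : ST) := rfl
  have q5 : e2 = ((0, ee 1) : ST) := rfl
  rw [Lh, pd0_prod hη hχ, q4, q5, pd_prod hη hχ, pd_prod hη hχ, pd_prod hη (sm_pd hχ _),
    pd_prod hη (sm_pd hχ _), lap]
  ring

theorem ts_prod : tsupport (fun z : ST => η z.1 * χ z.2) ⊆ tsupport η ×ˢ tsupport χ :=
  closure_minimal (fun _ hz => ⟨subset_tsupport _ (left_ne_zero_of_mul hz),
    subset_tsupport _ (right_ne_zero_of_mul hz)⟩) ((isClosed_tsupport _).prod (isClosed_tsupport _))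

end prod

theorem ell (h : Rc1S) : ∃ C : ℝ, 0 ≤ C ∧ ∀ (c : P) (s τ : ℝ) (χ : P → ℝ) (N : Set P) (z : L)
    (d : Fin 2 → L) (G : P → ℝ), 0 < s → 0 ≤ τ → IsOpen N → Test N χ →
    (∀ x ∈ tsupport χ, s ≤ qq c (0, x) ∧ qq c (0, x) ≤ 13 / 10 * s) →
    (∀ i, WD univ (ee i) z (d i)) → M2 G →
    (∀ φ, Test N φ → ∑ i, ∫ x, d i x * pd (ee i) φ x = ∫ x, G x * φ x) →
    τ * s / 4 * ∑ i, nm (fun x => E0 c s τ x * (χ x * d i x + pd (ee i) χ x * z x)) ^ 2
      + (4 * τ ^ 3 * s ^ 4 - 64 * τ - 72 * τ ^ 2 * s ^ 2 - C)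
        * nm (fun x => E0 c s τ x * (χ x * z x)) ^ 2
      ≤ 4 * nm (fun x => E0 c s τ x * (lap χ x * z x + 2 * ∑ i, pd (ee i) χ x * d i x
        - χ x * G x)) ^ 2 := by
  obtain ⟨η, sη, cη, pη⟩ := exists_eta
  have iη : Integrable fun t => η t ^ 2 := by
    refine (sη.continuous.pow 2).integrable_of_hasCompactSupport ?_
    simp only [sq]
    exact cη.mul_left
  have iη' : Integrable fun t => deriv η t ^ 2 := by
    refine ((sη.continuous_deriv (by simp)).pow 2).integrable_of_hasCompactSupport ?_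
    simp only [sq]
    exact cη.deriv.mul_left
  have p' : 0 ≤ ∫ t, deriv η t ^ 2 := integral_nonneg fun _ => sq_nonneg _
  refine ⟨4 * (∫ t, deriv η t ^ 2) / ∫ t, η t ^ 2, by positivity, ?_⟩
  intro c s τ χ N z d G hs hτ hN hχ hsup hw hG he
  have sE := sm_E0 c s τ
  have mz := M2.coe z
  have md := fun i => M2.coe (d i)
  have mu : ∀ {u g : P → ℝ}, Test N u → M2 g → M2 fun x => E0 c s τ x * (u x * g x) :=
    fun hu hg => by simpa only [mul_assoc] using hg.tmul (hu.smul sE)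
  have mP : ∀ i, M2 fun x => E0 c s τ x * (χ x * d i x + pd (ee i) χ x * z x) := fun i => by
    simpa only [mul_add] using (mu hχ (md i)).add (mu (hχ.pd _) mz)
  have mQ := mu hχ mz
  have mR : M2 fun x => E0 c s τ x * (lap χ x * z x + 2 * ∑ i, pd (ee i) χ x * d i x
      - χ x * G x) := by
    refine (((mu (test_lap hχ) mz).add (((mu (hχ.pd (ee 0)) (md 0)).add
      (mu (hχ.pd (ee 1)) (md 1))).cmul 2)).sub (mu hχ hG)).congr (Eventually.of_forall fun x => ?_)
    simp only [Fin.sum_univ_two]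
    ring
  set X := nm (fun x => E0 c s τ x * (lap χ x * z x + 2 * ∑ i, pd (ee i) χ x * d i x
    - χ x * G x)) ^ 2 with hX
  set Y := nm (fun x => E0 c s τ x * (χ x * z x)) ^ 2 with hY
  set Z := ∑ i, nm (fun x => E0 c s τ x * (χ x * d i x + pd (ee i) χ x * z x)) ^ 2 with hZ
  have eE : ∀ t x, Real.exp (τ * wt c s 0 0 (t, x)) = E0 c s τ x := fun t x => by
    simp only [wt, zero_mul, sub_zero]
    rfl
  obtain ⟨-, k⟩ := h c s τ 0 0 (36 * s ^ 2) (nm G) (fun z : ST => η z.1 * χ z.2) univ N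
    (fun _ => z) (fun i _ => d i) (fun _ => G)
    (fun t => η t ^ 2 * (4 * X) + deriv η t ^ 2 * (4 * Y)) hs hτ hN (sm_prod sη hχ.1)
    ((cη.isCompact.prod hχ.2.1.isCompact).of_isClosed_subset (isClosed_tsupport _) ts_prod)
    (fun y hy => ⟨mem_univ _, hχ.2.2 (ts_prod hy).2, (hsup _ (ts_prod hy).2).1,
      (hsup _ (ts_prod hy).2).2, le_of_eq (by ring)⟩) contDiff_const (fun _ => continuous_const)
    (fun _ => hw) (fun t _ => ⟨hG, le_rfl, fun φ hφ => by
      rw [← he φ hφ, deriv_const, integral_congr_ae (g := fun _ => 0)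
        ((Lp.coeFn_zero ℝ 2 (volume : Measure P)).mono fun x hx => by
          simp only [hx, Pi.zero_apply, zero_mul]), integral_zero, zero_add]⟩)
    ((iη.mul_const _).add (iη'.mul_const _)) fun t => by
      have i1 := (mR.int_sq.const_mul 4).const_mul (η t ^ 2)
      have i2 := (mQ.int_sq.const_mul 4).const_mul (deriv η t ^ 2)
      rw [hX, hY, nm_sq, nm_sq, ← integral_const_mul, ← integral_const_mul, ← integral_const_mul,
        ← integral_const_mul, ← integral_add i1 i2, cR]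
      refine integral_mono_of_nonneg (Eventually.of_forall fun x => by positivity) (i1.add i2)
        (Eventually.of_forall fun x => ?_)
      simp only [eE, Lh_prod sη hχ.1, pd_prod sη hχ.1, Fin.sum_univ_two]
      nlinarith [sq_nonneg (η t * (E0 c s τ x * (lap χ x * z x + 2 * (pd (ee 0) χ x * d 0 x
        + pd (ee 1) χ x * d 1 x) - χ x * G x)) + deriv η t * (E0 c s τ x * (χ x * z x)))]
  have eL : cL c s τ 0 0 (36 * s ^ 2) (fun z : ST => η z.1 * χ z.2) (fun _ => z) (fun i _ => d i)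
      = fun t => η t ^ 2 * (τ * s / 4 * Z + (4 * τ ^ 3 * s ^ 4 - 64 * τ - 72 * τ ^ 2 * s ^ 2) * Y) :=
    funext fun t => by
      have i1 := ((mP 0).int_sq.fun_add (mP 1).int_sq).const_mul (τ * s / 4)
      have i2 := mQ.int_sq.const_mul (4 * τ ^ 3 * s ^ 4 - 64 * τ - 72 * τ ^ 2 * s ^ 2)
      rw [hZ, hY, Fin.sum_univ_two, nm_sq, nm_sq, nm_sq,
        ← integral_add (mP 0).int_sq (mP 1).int_sq, ← integral_const_mul, ← integral_const_mul,
        ← integral_add i1 i2, ← integral_const_mul, cL]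
      refine integral_congr_ae (Eventually.of_forall fun x => ?_)
      simp only [eE, pd_prod sη hχ.1, Fin.sum_univ_two]
      ring
  rw [eL, integral_add (iη.mul_const _) (iη'.mul_const _), integral_mul_const, integral_mul_const,
    integral_mul_const] at k
  refine le_of_mul_le_mul_left ?_ pη
  have e : (∫ t, η t ^ 2) * (4 * (∫ t, deriv η t ^ 2) / ∫ t, η t ^ 2) = 4 * ∫ t, deriv η t ^ 2 := by
    field_simp
  generalize 4 * (∫ t, deriv η t ^ 2) / ∫ t, η t ^ 2 = C at e ⊢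
  have e' : (∫ t, η t ^ 2) * C * Y = 4 * (∫ t, deriv η t ^ 2) * Y := by rw [e]
  nlinarith

/-- The equation of a cut-off solution. -/
theorem eq_cut {N : Set P} {ψ z G : P → ℝ} {d : Fin 2 → P → ℝ} (hψ : Test N ψ) (mz : M2 z)
    (md : ∀ i, M2 (d i)) (hG : M2 G) (hw : ∀ i, WD N (ee i) z (d i))
    (he : ∀ φ, Test N φ → ∑ i, ∫ x, d i x * pd (ee i) φ x = ∫ x, G x * φ x) (φ : P → ℝ)
    (hφ : Test univ φ) : ∑ i, ∫ x, (ψ x * d i x + pd (ee i) ψ x * z x) * pd (ee i) φ x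
      = ∫ x, -(lap ψ x * z x + 2 * ∑ i, pd (ee i) ψ x * d i x - ψ x * G x) * φ x := by
  have a := he _ (hψ.muls hφ.1)
  have b := fun i => hw i _ ((hψ.pd (ee i)).muls hφ.1)
  have i1 := fun i => (md i).int_mul ((hψ.pd (ee i)).muls hφ.1).m2
  have i2 := fun i => (md i).int_mul (hψ.muls (hφ.pd (ee i)).1).m2
  have i3 := fun i => mz.int_mul (((hψ.pd (ee i)).pd (ee i)).muls hφ.1).m2
  have i4 := fun i => mz.int_mul ((hψ.pd (ee i)).muls (hφ.pd (ee i)).1).m2
  have i5 := hG.int_mul (hψ.muls hφ.1).m2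
  have a1 : ∀ i, ∫ x, d i x * pd (ee i) (fun x => ψ x * φ x) x
      = (∫ x, d i x * (pd (ee i) ψ x * φ x)) + ∫ x, d i x * (ψ x * pd (ee i) φ x) := fun i => by
    rw [← integral_add (i1 i) (i2 i)]
    refine integral_congr_ae (Eventually.of_forall fun x => ?_)
    simp only [pd_mul _ (sm_diff hψ.1 x) (sm_diff hφ.1 x)]
    ring
  have b1 : ∀ i, ∫ x, z x * pd (ee i) (fun x => pd (ee i) ψ x * φ x) x
      = (∫ x, z x * (pd (ee i) (pd (ee i) ψ) x * φ x))
        + ∫ x, z x * (pd (ee i) ψ x * pd (ee i) φ x) := fun i => by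
    rw [← integral_add (i3 i) (i4 i)]
    refine integral_congr_ae (Eventually.of_forall fun x => ?_)
    simp only [pd_mul _ (sm_diff (hψ.pd _).1 x) (sm_diff hφ.1 x)]
    ring
  have c1 : ∀ i, ∫ x, (ψ x * d i x + pd (ee i) ψ x * z x) * pd (ee i) φ x
      = (∫ x, d i x * (ψ x * pd (ee i) φ x))
        + ∫ x, z x * (pd (ee i) ψ x * pd (ee i) φ x) := fun i => by
    rw [← integral_add (i2 i) (i4 i)]
    refine integral_congr_ae (Eventually.of_forall fun x => ?_)
    ring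
  have c2 : ∫ x, -(lap ψ x * z x + 2 * ∑ i, pd (ee i) ψ x * d i x - ψ x * G x) * φ x
      = (∫ x, G x * (ψ x * φ x)) - (((∫ x, z x * (pd (ee 0) (pd (ee 0) ψ) x * φ x))
        + ∫ x, z x * (pd (ee 1) (pd (ee 1) ψ) x * φ x))
        + 2 * ((∫ x, d 0 x * (pd (ee 0) ψ x * φ x)) + ∫ x, d 1 x * (pd (ee 1) ψ x * φ x))) := by
    have j1 := (i3 0).fun_add (i3 1)
    have j2 := ((i1 0).fun_add (i1 1)).const_mul 2
    rw [← integral_add (i3 0) (i3 1), ← integral_add (i1 0) (i1 1), ← integral_const_mul,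
      ← integral_add j1 j2, ← integral_sub i5 (j1.fun_add j2)]
    refine integral_congr_ae (Eventually.of_forall fun x => ?_)
    simp only [lap, Fin.sum_univ_two]
    ring
  simp only [a1, b1, c1, Fin.sum_univ_two] at a b ⊢
  simp only [Fin.sum_univ_two] at c2
  rw [c2]
  linarith [b 0, b 1]

end Pool.Agent.MP_ed9623_an.E13
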