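import Pool.Agent.MP_ed9623_an.E16.Spec
import Pool.Agent.MP_ed9623_an.E13.Ell

/-! The weighted pointwise bound for weak solutions of the Poisson equation. -/

open MeasureTheory Filter Topology Set
open scoped ContDiff

namespace Pool.Agent.MP_ed9623_an.E13

open H64 H77

theorem HD_sl {F : ST → ℝ} {F' t : ℝ} {e x : P} (h : HD ((0, e) : ST) (t, x) F F') :
    HD e x (fun y => F (t, y)) F' := by
  unfold HD at h ⊢
  simpa using h

/-- The derivative of the exponent. -/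
noncomputable def ww (c : P) (s : ℝ) (e x : P) : ℝ :=
  -4 * (mm c s (0, x) * (XX c (0, x) * e.1 + H64.YY c (0, x) * e.2))

theorem sm_ww (c : P) (s : ℝ) (e : P) : ContDiff ℝ ∞ (ww c s e) := by
  have a : ContDiff ℝ ∞ fun x : P => ((0, x) : ST) := contDiff_const.prodMk contDiff_id
  exact contDiff_const.mul (((cd_mm c s ∞).comp a).mul
    ((((cd_XX c ∞).comp a).mul contDiff_const).add (((cd_YY c ∞).comp a).mul contDiff_const)))

theorem HD_ww (c : P) (s : ℝ) (e x : P) : HD e x (ww c s e)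
    (8 * (XX c (0, x) * e.1 + H64.YY c (0, x) * e.2) ^ 2
      - 4 * mm c s (0, x) * (e.1 ^ 2 + e.2 ^ 2)) :=
  (((HD_sl (HD_mm c s (0, e) (0, x))).mul
    (((HD_sl (HD_XX c (0, e) (0, x))).mul (HD.const e x e.1)).add
      ((HD_sl (HD_YY c (0, e) (0, x))).mul (HD.const e x e.2)))).cmul (-4)).congr (by ring)

theorem HD_E0 (c : P) (s τ : ℝ) (e x : P) :
    HD e x (E0 c s τ) (E0 c s τ x * (τ * ww c s e x)) :=
  ((((HD_sl (HD_mm c s (0, e) (0, x))).mul (HD_sl (HD_mm c s (0, e) (0, x)))).cmul τ).exp).congr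
    (by simp only [E0, ww]; ring)

theorem pd_E {χ : P → ℝ} (hχ : ContDiff ℝ ∞ χ) (c : P) (s τ : ℝ) (e : P) :
    pd e (fun x => E0 c s τ x * χ x)
      = fun x => E0 c s τ x * (pd e χ x + τ * (ww c s e x * χ x)) := funext fun x =>
  (((HD_E0 c s τ e x).mul (HD.of_diff (sm_diff hχ x))).pd_eq
    (sm_diff ((sm_E0 c s τ).mul hχ) x)).trans (by ring)

theorem pd2_E {χ : P → ℝ} (hχ : ContDiff ℝ ∞ χ) (c : P) (s τ : ℝ) (e x : P) :
    pd e (pd e fun x => E0 c s τ x * χ x) x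
      = E0 c s τ x * (pd e (pd e χ) x + 2 * τ * ww c s e x * pd e χ x
        + (τ ^ 2 * ww c s e x ^ 2 + τ * (8 * (XX c (0, x) * e.1 + H64.YY c (0, x) * e.2) ^ 2
          - 4 * mm c s (0, x) * (e.1 ^ 2 + e.2 ^ 2))) * χ x) := by
  rw [pd_E hχ]
  exact (((HD_E0 c s τ e x).mul ((HD.of_diff (sm_diff (H77.sm_pd hχ e) x)).add
    (((HD_ww c s e x).mul (HD.of_diff (sm_diff hχ x))).cmul τ))).pd_eq
    (sm_diff ((sm_E0 c s τ).mul ((H77.sm_pd hχ e).add
      (contDiff_const.mul ((sm_ww c s e).mul hχ)))) x)).trans (by ring)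

theorem pt_bd {s τ X Y m p0 p1 q r : ℝ} (hs : 0 < s) (hτ : 0 < τ) (ha : 9 ≤ τ * s ^ 2)
    (hm : m = 3 * s / 2 - (X * X + Y * Y))
    (h : (s ≤ X * X + Y * Y ∧ X * X + Y * Y ≤ 13 / 10 * s) ∨ (p0 = 0 ∧ p1 = 0 ∧ q = 0)) :
    (p0 + τ * (-4 * (m * X)) * q) ^ 2 + (p1 + τ * (-4 * (m * Y)) * q) ^ 2
        ≤ 2 * (p0 ^ 2 + p1 ^ 2) + 12 * τ ^ 2 * s ^ 3 * q ^ 2 ∧
      (r + 2 * τ * (-4 * (m * X) * p0 + -4 * (m * Y) * p1)
        + (τ ^ 2 * (16 * m ^ 2 * (X * X + Y * Y)) + τ * (8 * (X * X + Y * Y) - 8 * m)) * q) ^ 2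
        ≤ 3 * r ^ 2 + 72 * τ ^ 2 * s ^ 3 * (p0 ^ 2 + p1 ^ 2) + 147 * τ ^ 4 * s ^ 6 * q ^ 2 := by
  rcases h with ⟨h1, h2⟩ | ⟨rfl, rfl, rfl⟩
  swap
  · constructor <;> nlinarith [sq_nonneg r]
  have hm0 : 0 ≤ m := by linarith
  have hG : 16 * m ^ 2 * (X * X + Y * Y) ≤ 6 * s ^ 3 := by
    have : m ^ 2 ≤ (s / 2) ^ 2 := pow_le_pow_left₀ hm0 (by linarith) 2
    nlinarith [mul_le_mul this h2 (by linarith) (by positivity), pow_pos hs 3]
  have hG0 : 0 ≤ 16 * m ^ 2 * (X * X + Y * Y) := mul_nonneg (by positivity) (by linarith)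
  have a0 := mul_le_mul_of_nonneg_left hG (show 0 ≤ τ ^ 2 * q ^ 2 by positivity)
  refine ⟨by nlinarith [sq_nonneg (p0 - τ * (-4 * (m * X)) * q),
    sq_nonneg (p1 - τ * (-4 * (m * Y)) * q)], ?_⟩
  obtain ⟨u, hu⟩ : ∃ u, u = 2 * τ * (-4 * (m * X) * p0 + -4 * (m * Y) * p1) := ⟨_, rfl⟩
  obtain ⟨v, hv⟩ : ∃ v, v = τ ^ 2 * (16 * m ^ 2 * (X * X + Y * Y))
    + τ * (8 * (X * X + Y * Y) - 8 * m) := ⟨_, rfl⟩
  have b1 : u ^ 2 ≤ 24 * τ ^ 2 * s ^ 3 * (p0 ^ 2 + p1 ^ 2) := by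
    have c1 : u ^ 2 ≤ 4 * τ ^ 2 * (p0 ^ 2 + p1 ^ 2) * (16 * m ^ 2 * (X * X + Y * Y)) := by
      rw [hu]
      nlinarith [mul_nonneg (show 0 ≤ 64 * τ ^ 2 * m ^ 2 by positivity)
        (sq_nonneg (X * p1 - Y * p0))]
    have c2 := mul_le_mul_of_nonneg_left hG (show 0 ≤ 4 * τ ^ 2 * (p0 ^ 2 + p1 ^ 2) by positivity)
    linarith
  have b2 : v ^ 2 ≤ (7 * τ ^ 2 * s ^ 3) ^ 2 := by
    have c1 := mul_le_mul_of_nonneg_left hG (sq_nonneg τ)
    have c2 : τ * (8 * (X * X + Y * Y) - 8 * m) ≤ τ * (9 * s) :=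
      mul_le_mul_of_nonneg_left (by linarith) hτ.le
    have c3 := mul_le_mul_of_nonneg_left ha (show 0 ≤ τ * s by positivity)
    refine pow_le_pow_left₀ ?_ (by rw [hv]; nlinarith) 2
    rw [hv]
    exact add_nonneg (mul_nonneg (sq_nonneg τ) hG0) (mul_nonneg hτ.le (by linarith))
  have b3 := mul_le_mul_of_nonneg_right b2 (sq_nonneg q)
  rw [← hu, ← hv]
  nlinarith [sq_nonneg (r - u), sq_nonneg (r - v * q), sq_nonneg (u - v * q)]

theorem elS : E16.ElS := by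
  obtain ⟨C, C0, hC⟩ := ell (rowRc1 rowMol1 rowMol2)
  intro c s hs
  refine ⟨421 / s, by positivity, ?_⟩
  filter_upwards [eventually_ge_atTop 1, eventually_ge_atTop ((136 + C) / s ^ 2)] with τ h1 h2
  intro N χ z G d hN hχ mz mG hd he
  have hτ : 0 < τ := by linarith
  rw [div_le_iff₀ (by positivity)] at h2
  have tN : Test N χ := hχ.mono inter_subset_right
  have hsup : ∀ x ∈ tsupport χ, s ≤ qq c (0, x) ∧ qq c (0, x) ≤ 13 / 10 * s :=
    fun x hx => ⟨(hχ.2.2 hx).1.1.le, (hχ.2.2 hx).1.2.le⟩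
  have md := fun i => (hd i).1
  have sE := sm_E0 c s τ
  have ez := mz.coeFn_toLp
  have ed := fun i => (md i).coeFn_toLp
  have k := hC c s τ χ N (mz.toLp z) (fun i => (md i).toLp (d i)) G hs hτ.le hN tN hsup
    (fun i => (hd i).2.congr (ez.mono fun _ h _ => h.symm) ((ed i).mono fun _ h _ => h.symm)) mG
    fun φ hφ => (Finset.sum_congr rfl fun i _ =>
      integral_congr_ae ((ed i).mul EventuallyEq.rfl)).trans (he φ hφ)
  set p : Fin 2 → P → ℝ := fun i x => E0 c s τ x * (χ x * d i x + pd (ee i) χ x * z x) with hp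
  set q : P → ℝ := fun x => E0 c s τ x * (χ x * z x) with hq
  set r : P → ℝ := fun x => E0 c s τ x * (lap χ x * z x + 2 * ∑ i, pd (ee i) χ x * d i x
    - χ x * G x) with hr
  have k0 : ∀ i, nm (fun x => E0 c s τ x * (χ x * (md i).toLp (d i) x
      + pd (ee i) χ x * mz.toLp z x)) = nm (p i) := fun i => nm_congr (by
    filter_upwards [ez, ed i] with x a b
    simp only [hp, a, b])
  have k1 : nm (fun x => E0 c s τ x * (χ x * mz.toLp z x)) = nm q := nm_congr (by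
    filter_upwards [ez] with x a
    simp only [hq, a])
  have k2 : nm (fun x => E0 c s τ x * (lap χ x * mz.toLp z x
      + 2 * ∑ i, pd (ee i) χ x * (md i).toLp (d i) x - χ x * G x)) = nm r := nm_congr (by
    filter_upwards [ez, ed 0, ed 1] with x a b b'
    simp only [hr, Fin.sum_univ_two, a, b, b'])
  rw [Fin.sum_univ_two, k0, k0, k1, k2] at k
  clear k0 k1 k2
  have mu : ∀ {u g : P → ℝ}, Test N u → M2 g → M2 fun x => E0 c s τ x * (u x * g x) :=
    fun hu hg => by simpa only [mul_assoc] using hg.tmul (hu.smul sE)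
  have mP : ∀ i, M2 (p i) := fun i => by
    simpa only [hp, mul_add] using (mu tN (md i)).add (mu (tN.pd _) mz)
  have mQ : M2 q := mu tN mz
  have mR : M2 r := by
    refine (((mu (test_lap tN) mz).add (((mu (tN.pd (ee 0)) (md 0)).add
      (mu (tN.pd (ee 1)) (md 1))).cmul 2)).sub (mu tN mG)).congr (Eventually.of_forall fun x => ?_)
    simp only [hr, Fin.sum_univ_two]
    ring
  have tψ := tN.smul sE
  set ψ : P → ℝ := fun x => E0 c s τ x * χ x with hψ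
  have mg := fun i => ((md i).tmul tψ).add (mz.tmul (tψ.pd (ee i)))
  have mH : M2 fun x => -(lap ψ x * z x + 2 * ∑ i, pd (ee i) ψ x * d i x - ψ x * G x) := by
    simp only [Fin.sum_univ_two]
    exact (((mz.tmul (test_lap tψ)).add ((((md 0).tmul (tψ.pd _)).add
      ((md 1).tmul (tψ.pd _))).cmul 2)).sub (mG.tmul tψ)).neg
  have hl : 0 < τ ^ 2 * s ^ 3 := by positivity
  have ag := agm rowMol1 rowMol2 (f := fun x => ψ x * z x)
    (d := fun i x => ψ x * d i x + pd (ee i) ψ x * z x) hl tψ.2.1.isCompact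
    (Eventually.of_forall fun x hx => mul_eq_zero_of_left (image_eq_zero_of_notMem_tsupport hx) _)
    (mz.tmul tψ) mg mH (fun i => ((hd i).2.mono (subset_univ N)).cut mz (md i) tψ)
    (eq_cut tψ mz md mG (fun i => (hd i).2.mono (subset_univ N)) he)
  have pt : ∀ x, _ := fun x => pt_bd (X := XX c (0, x)) (Y := H64.YY c (0, x)) (m := mm c s (0, x))
    (p0 := p 0 x) (p1 := p 1 x) (q := q x) (r := r x) hs hτ (by linarith) rfl (by
      by_cases hx : x ∈ tsupport χ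
      · exact Or.inl (hsup x hx)
      · have a := image_eq_zero_of_notMem_tsupport hx
        have b := fun e => image_eq_zero_of_notMem_tsupport fun h => hx (tsupport_pd e χ h)
        exact Or.inr (by simp [hp, hq, a, b]))
  have iZ := (mP 0).int_sq.fun_add (mP 1).int_sq
  have b1 : nm (fun x => ψ x * d 0 x + pd (ee 0) ψ x * z x) ^ 2
      + nm (fun x => ψ x * d 1 x + pd (ee 1) ψ x * z x) ^ 2
      ≤ 2 * (nm (p 0) ^ 2 + nm (p 1) ^ 2) + 12 * τ ^ 2 * s ^ 3 * nm q ^ 2 := by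
    simp only [nm_sq]
    rw [← integral_add (mg 0).int_sq (mg 1).int_sq, ← integral_add (mP 0).int_sq (mP 1).int_sq,
      ← integral_const_mul, ← integral_const_mul,
      ← integral_add (iZ.const_mul _) (mQ.int_sq.const_mul _)]
    refine integral_mono ((mg 0).int_sq.add (mg 1).int_sq)
      ((iZ.const_mul _).add (mQ.int_sq.const_mul _)) fun x => le_of_eq_of_le ?_ (pt x).1
    simp only [hψ, hp, hq, pd_E hχ.1, ww, ee, Matrix.cons_val_zero, Matrix.cons_val_one]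
    ring
  have b2 : nm (fun x => -(lap ψ x * z x + 2 * ∑ i, pd (ee i) ψ x * d i x - ψ x * G x)) ^ 2
      ≤ 3 * nm r ^ 2 + 72 * τ ^ 2 * s ^ 3 * (nm (p 0) ^ 2 + nm (p 1) ^ 2)
        + 147 * τ ^ 4 * s ^ 6 * nm q ^ 2 := by
    have j := (mR.int_sq.const_mul 3).fun_add (iZ.const_mul (72 * τ ^ 2 * s ^ 3))
    simp only [nm_sq]
    rw [← integral_add (mP 0).int_sq (mP 1).int_sq, ← integral_const_mul, ← integral_const_mul,
      ← integral_const_mul, ← integral_add (mR.int_sq.const_mul _) (iZ.const_mul _),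
      ← integral_add j (mQ.int_sq.const_mul _)]
    refine integral_mono mH.int_sq (j.add (mQ.int_sq.const_mul _))
      fun x => le_of_eq_of_le ?_ (pt x).2
    simp only [lap, hψ, pd2_E hχ.1]
    simp only [hp, hq, hr, lap, pd_E hχ.1, ww, ee, Matrix.cons_val_zero, Matrix.cons_val_one,
      Fin.sum_univ_two]
    ring
  have eq : nm (fun x => ψ x * z x) = nm q := congrArg nm (funext fun x => mul_assoc _ _ _)
  filter_upwards [ag] with x hx
  change τ * (E0 c s τ x * (χ x * z x)) ^ 2 ≤ 421 / s * nm r ^ 2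
  rw [eq] at hx
  rw [← mul_assoc (E0 c s τ x), div_mul_eq_mul_div, le_div_iff₀ hs]
  change τ * (ψ x * z x) ^ 2 * s ≤ _
  generalize nm (fun x => -(lap ψ x * z x + 2 * ∑ i, pd (ee i) ψ x * d i x - ψ x * G x)) ^ 2 = H
    at hx b2
  have n0 := sq_nonneg (nm q)
  have n1 := sq_nonneg (nm r)
  have n2 := add_nonneg (sq_nonneg (nm (p 0))) (sq_nonneg (nm (p 1)))
  generalize nm (p 0) ^ 2 + nm (p 1) ^ 2 = Z at k b1 b2 n2
  generalize nm q ^ 2 = Y at k b1 b2 n0 hx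
  generalize nm r ^ 2 = X at k b2 n1
  have κ : 2 * τ ^ 3 * s ^ 4 ≤ 4 * τ ^ 3 * s ^ 4 - 64 * τ - 72 * τ ^ 2 * s ^ 2 - C := by
    have a1 := mul_le_mul_of_nonneg_left h2 (show 0 ≤ τ * (τ * s ^ 2) by positivity)
    have a2 : 1 ≤ τ * s ^ 2 := by linarith
    have a3 : τ ≤ τ * (τ * s ^ 2) := le_mul_of_one_le_right hτ.le a2
    have a4 := mul_le_mul_of_nonneg_left (h1.trans a3) C0
    have a5 : 0 ≤ τ ^ 3 * s ^ 4 := by positivity
    nlinarith
  have k1 := mul_le_mul_of_nonneg_right κ n0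
  have k2 : 0 ≤ τ * s * Z := by positivity
  have k3 : 0 ≤ τ ^ 3 * s ^ 4 * Y := by positivity
  have b3 : τ * s * (H / (4 * (τ ^ 2 * s ^ 3))) ≤ X + 18 * (τ * s * Z) + 37 * (τ ^ 3 * s ^ 4 * Y) := by
    rw [← mul_div_assoc, div_le_iff₀ (by positivity)]
    have a1 := mul_le_mul_of_nonneg_left b2 (show 0 ≤ τ * s by positivity)
    have a2 := mul_le_mul_of_nonneg_left (show 1 ≤ τ * s ^ 2 by linarith)
      (show 0 ≤ τ * s * X by positivity)
    have a3 : 0 ≤ τ * s * X := by positivity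
    have a4 : 0 ≤ τ ^ 5 * s ^ 7 * Y := by positivity
    nlinarith
  have b4 := mul_le_mul_of_nonneg_left hx (show 0 ≤ τ * s by positivity)
  have b5 := mul_le_mul_of_nonneg_left b1 (show 0 ≤ τ * s by positivity)
  nlinarith

end Pool.Agent.MP_ed9623_an.E13
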